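import Pool.Agent.N641.VB.Stm2

set_option autoImplicit false

/-!
# Project VB (helper641), MP_5df2c5_lc, part CNS
-/

namespace Pool.Agent.N691.VB

open Pool.Agent.N641.VB

/-- there are countably many monoid structures on `Fin m` -/
theorem CNS : S_CNS := by
  intro m
  have hinj : Function.Injective
      (fun (s : AddCommMonoid (Fin m)) => fun (a b : Fin m) => s.add a b) := by
    intro s t h
    exact AddCommMonoid.ext h
  exact hinj.countable

end Pool.Agent.N691.VB
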